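import Pool.Agent.R3B.StmtsB

/-!
# Squad R3B (MP_be01ff_an), row PRF: the profile
-/

set_option autoImplicit false

namespace Pool.Agent.R3B.H97

open Set Filter Topology MeasureTheory
open Pool.Agent.R3B
open Pool.Agent.Helper39_Wave (phi)
open Pool.Agent.Helper72_Shell (CharSol En psi fold bw fold_eq)

theorem period {ℓ : ℝ} {f : ℝ → ℝ} (hf : Continuous f) (hp : Function.Periodic f (2 * ℓ))
    (t : ℝ) : ∫ r in (0 : ℝ)..ℓ, (f (t + r) + f (t - r)) = ∫ y in (0 : ℝ)..(2 * ℓ), f y := by
  have h1 : Continuous fun r => f (t + r) := hf.comp (continuous_const.add continuous_id)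
  have h2 : Continuous fun r => f (t - r) := hf.comp (continuous_const.sub continuous_id)
  rw [intervalIntegral.integral_add (h1.intervalIntegrable _ _) (h2.intervalIntegrable _ _),
    intervalIntegral.integral_comp_add_left, intervalIntegral.integral_comp_sub_left,
    add_zero, sub_zero, add_comm,
    intervalIntegral.integral_add_adjacent_intervals (hf.intervalIntegrable _ _)
      (hf.intervalIntegrable _ _)]
  have h3 := hp.intervalIntegral_add_eq (t - ℓ) 0
  rw [zero_add, show t - ℓ + 2 * ℓ = t + ℓ by ring] at h3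
  exact h3

/-- Row PRF. -/
theorem prf (pyd : PydStmt) (prv : PrvStmt) : PrfStmt := by
  intro a α ℓ P Y ha hα hℓ hP hYc hYp hY
  obtain ⟨p1, p2, p3⟩ := prv a α ℓ P Y ha hα hℓ hP hYc hY
  obtain ⟨q1, -⟩ := pyd a α ℓ P Y ha hα hℓ hP hYc hY
  have cP : ∀ {X : Type} [TopologicalSpace X] {f g : X → ℝ}, Continuous f → Continuous g →
      Continuous fun x => P (f x) (g x) := fun hf hg => hP.cont.comp (hf.prodMk hg)
  have cY : ∀ {X : Type} [TopologicalSpace X] {f g : X → ℝ}, Continuous f → Continuous g →
      Continuous fun x => Y (f x) (g x) := fun hf hg => hYc.comp (hf.prodMk hg)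
  have hper : ∀ t, Function.Periodic (P t) (2 * ℓ) := fun t y => hP.per t y
  have hPt : ∀ t, Continuous (P t) := fun t => cP continuous_const continuous_id
  have hbl : ∀ r, 0 ≤ r → r ≤ ℓ → bl α ℓ r = r ^ (-α) := by
    intro r h0 h1
    unfold bl
    rw [fold_eq hℓ h0 h1]
  have hDD : ∀ t r, DD P t (t + r) = P t (t + r) - P t (t - r) := by
    intro t r
    unfold DD
    rw [show 2 * t - (t + r) = t - r by ring]
  have cA : Continuous fun z : ℝ × ℝ => Y z.1 (z.1 + z.2) - Y z.1 (z.1 - z.2) :=
    (cY continuous_fst (continuous_fst.add continuous_snd)).sub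
      (cY continuous_fst (continuous_fst.sub continuous_snd))
  refine ⟨fun t r => ∫ ρ in (0 : ℝ)..r, (P t (t + ρ) + P t (t - ρ)),
    fun t r => P t (t + r) - P t (t - r), fun t r => P t (t + r) + P t (t - r),
    fun t r => Y t (t + r) - Y t (t - r), fun t r => Y t (t + r) + Y t (t - r),
    fun t r => Y t (t + r) - Y t (t - r) +
      a * r ^ (-α) * phi α (P t (t + r) - P t (t - r)), ?_, ?_⟩
  · refine ⟨?_, ?_, ?_, ?_, ?_, ?_, ?_, ?_, ?_, ?_, ?_, ?_, ?_, ?_⟩
    · exact ((cP continuous_fst (continuous_fst.add continuous_snd)).sub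
        (cP continuous_fst (continuous_fst.sub continuous_snd))).continuousOn
    · exact ((cP continuous_fst (continuous_fst.add continuous_snd)).add
        (cP continuous_fst (continuous_fst.sub continuous_snd))).continuousOn
    · exact cA.continuousOn
    · exact ((cY continuous_fst (continuous_fst.add continuous_snd)).add
        (cY continuous_fst (continuous_fst.sub continuous_snd))).continuousOn
    · have h1 : ContinuousOn (fun z : ℝ × ℝ =>
          bl α ℓ (z.1 + z.2 - z.1) * phi α (DD P z.1 (z.1 + z.2))) (Ici 0 ×ˢ Icc 0 ℓ) := by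
        refine q1.comp (f := fun z : ℝ × ℝ => (z.1, z.1 + z.2))
          (continuous_fst.prodMk (continuous_fst.add continuous_snd)).continuousOn ?_
        intro z hz
        exact ⟨hz.1, mem_univ _⟩
      refine (cA.continuousOn.add ((continuousOn_const (c := a)).mul h1)).congr ?_
      intro z hz
      show Y z.1 (z.1 + z.2) - Y z.1 (z.1 - z.2) +
        a * z.2 ^ (-α) * phi α (P z.1 (z.1 + z.2) - P z.1 (z.1 - z.2)) =
        Y z.1 (z.1 + z.2) - Y z.1 (z.1 - z.2) +
        a * (bl α ℓ (z.1 + z.2 - z.1) * phi α (DD P z.1 (z.1 + z.2)))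
      rw [hDD, add_sub_cancel_left, hbl z.2 hz.2.1 hz.2.2]
      ring
    · intro t r _ _ _
      rfl
    · intro t _
      show ∫ ρ in (0 : ℝ)..ℓ, (P t (t + ρ) + P t (t - ρ)) = 0
      rw [period (hPt t) (hper t), hP.mean]
    · intro t r h0 h1 h2
      exact p1 t r h0 h1 h2
    · intro t _
      show P t (t + ℓ) - P t (t - ℓ) = 0
      have h := hP.per t (t - ℓ)
      rw [show t - ℓ + 2 * ℓ = t + ℓ by ring] at h
      rw [h, sub_self]
    · intro t r h0 h1 h2
      show P t (t + r) + P t (t - r) = P t (t + 0) + P t (t - 0) + _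
      rw [p2 t r h0 h1 h2, add_zero, sub_zero]
      ring
    · intro t h r h0 h1 h2 h3
      exact p3 t h r h0 h1 h2 h3
    · intro t h r h0 h1 h2 h3
      show P (t + h) (t + h + r) - P (t + h) (t + h - r) - (P t (t + r) - P t (t - r)) =
        ∫ s in (0 : ℝ)..h, (Y (t + s) (t + s + r) - Y (t + s) (t + s - r))
      have e1 := hY t h (t + r) h0 h1
      have e2 := hY t h (t - r) h0 h1
      have c1 : Continuous fun s : ℝ => Y (t + s) (t + r + s) :=
        cY (continuous_const.add continuous_id) (continuous_const.add continuous_id)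
      have c2 : Continuous fun s : ℝ => Y (t + s) (t - r + s) :=
        cY (continuous_const.add continuous_id) (continuous_const.add continuous_id)
      have e3 : ∫ s in (0 : ℝ)..h, (Y (t + s) (t + s + r) - Y (t + s) (t + s - r)) =
          ∫ s in (0 : ℝ)..h, (Y (t + s) (t + r + s) - Y (t + s) (t - r + s)) := by
        congr 1
        funext s
        rw [show t + s + r = t + r + s by ring, show t + s - r = t - r + s by ring]
      rw [e3, intervalIntegral.integral_sub (c1.intervalIntegrable _ _)
        (c2.intervalIntegrable _ _), ← e1, ← e2,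
        show t + h + r = t + r + h by ring, show t + h - r = t - r + h by ring]
      ring
    · refine ⟨2 * (Real.pi / ℓ), fun t r h0 h1 h2 => ?_⟩
      have h := hP.vb t (t + r) h0
      rw [show 2 * t - (t + r) = t - r by ring, add_sub_cancel_left, fold_eq hℓ h1 h2] at h
      exact h
    · intro t r _ _ _
      show Y t (t + r) - Y t (t - r) - (Y t (t + r) - Y t (t - r) +
        a * r ^ (-α) * phi α (P t (t + r) - P t (t - r))) +
        a * r ^ (-α) * (|P t (t + r) - P t (t - r)| ^ α * (P t (t + r) - P t (t - r))) = 0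
      unfold phi
      ring
  · intro t _
    show ∫ r in (0 : ℝ)..ℓ, ((P t (t + r) - P t (t - r)) ^ 2 +
      (P t (t + r) + P t (t - r)) ^ 2) = 2 * En ℓ P t
    have h1 : ∀ r, (P t (t + r) - P t (t - r)) ^ 2 + (P t (t + r) + P t (t - r)) ^ 2 =
        2 * (P t (t + r) ^ 2 + P t (t - r) ^ 2) := fun r => by ring
    have h2 := period (ℓ := ℓ) (f := fun y => P t y ^ 2) ((hPt t).pow 2)
      (fun y => by
        show P t (y + 2 * ℓ) ^ 2 = P t y ^ 2
        rw [hper t y]) t
    simp only [h1]
    rw [intervalIntegral.integral_const_mul, h2]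
    rfl

end Pool.Agent.R3B.H97
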